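import Pool.Agent.Helper186.TimeFlow
import Pool.Agent.Y522.Tools

/-!
# Straightening a function without critical points
-/

set_option autoImplicit false
set_option maxSynthPendingDepth 3
set_option linter.unusedSectionVars false

open Set Filter Topology Metric Function
open scoped Manifold ContDiff

noncomputable section

namespace Pool.Agent.N824.FL

open Pool.Agent.Y522 Pool.Agent.Helper186

variable {n : ℕ}

/-- a vector field which is constant outside a compact set is complete -/
theorem complete_const {V : E n → E n} (hV : ContDiff ℝ ∞ V) {C : Set (E n)} (hC : IsCompact C)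
    {e : E n} (he : ‖e‖ = 1) (hVC : ∀ x, x ∉ C → V x = e) (x : E n) :
    ∃ c : ℝ → E n, c 0 = x ∧ IsMIntegralCurve (I := 𝓡 n) c V := by
  have hVs : ContMDiff (𝓡 n) (𝓡 n).tangent ∞ (fun x => (⟨x, V x⟩ : TangentBundle (𝓡 n) (E n))) :=
    contMDiff_vectorSpace_iff_contDiff.2 hV
  have hC' : IsCompact (cthickening 1 C) := hC.cthickening
  obtain ⟨ε, hε, h⟩ := exists_uniform_time_compact hVs hC'
  refine exists_isMIntegralCurve_of_isMIntegralCurveOn (hVs.of_le (by simp))
    (ε := min ε 1) (by positivity) ?_ x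
  intro y
  by_cases hy : y ∈ cthickening 1 C
  · obtain ⟨c, hc0, hc⟩ := h y hy
    exact ⟨c, hc0, hc.mono (Ioo_subset_Ioo (neg_le_neg (min_le_left _ _)) (min_le_left _ _))⟩
  · refine ⟨fun t => y + t • e, by simp, ?_⟩
    intro t ht
    have ht1 : |t| < 1 := by
      rw [abs_lt]
      have h1 : min ε 1 ≤ 1 := min_le_right _ _
      constructor <;> linarith [ht.1, ht.2]
    have hyt : y + t • e ∉ C := by
      intro hmem
      apply hy
      refine mem_cthickening_of_dist_le y (y + t • e) 1 C hmem ?_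
      rw [dist_eq_norm]
      have e1 : y - (y + t • e) = -(t • e) := by abel
      rw [e1, norm_neg, norm_smul, he, mul_one, Real.norm_eq_abs]
      exact ht1.le
    have h1 : HasFDerivAt (fun t : ℝ => y + t • e) ((1 : ℝ →L[ℝ] ℝ).smulRight e) t := by
      have h2 : HasDerivAt (fun t : ℝ => y + t • e) ((1 : ℝ) • e) t :=
        ((hasDerivAt_id' t).smul_const e).const_add y
      rw [one_smul] at h2
      exact h2.hasFDerivAt
    have h3 : HasMFDerivAt 𝓘(ℝ, ℝ) (𝓡 n) (fun t : ℝ => y + t • e) t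
        ((1 : ℝ →L[ℝ] ℝ).smulRight (V (y + t • e))) := by
      rw [hVC _ hyt]
      exact h1.hasMFDerivAt
    exact h3.hasMFDerivWithinAt

/-- a function without critical points which is linear outside a compact set -/
theorem straighten {e : E n} (he : ‖e‖ = 1) {L : E n →L[ℝ] ℝ} (hL : ∀ v, L v = inner ℝ e v)
    {g : E n → ℝ} (hg : ContDiff ℝ ∞ g)
    (hreg : ∀ x, fderiv ℝ g x ≠ 0) {C : Set (E n)} (hC : IsCompact C)
    (hCpos : ∀ x ∈ C, 0 < L x) (hgC : ∀ x, x ∉ C → g x = L x) :
    ∃ (θ Ψ : E n → E n) (η : ℝ), ContDiff ℝ ∞ θ ∧ ContDiff ℝ ∞ Ψ ∧ (∀ x, Ψ (θ x) = x) ∧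
      (∀ x, θ (Ψ x) = x) ∧ (∀ x, L (θ x) = g x) ∧ 0 < η ∧
      ∀ x, L x < η → θ x = x := by
  have hLe : L e = 1 := by
    rw [hL, real_inner_self_eq_norm_sq, he, one_pow]
  -- the gradient
  obtain ⟨G, hG⟩ : ∃ G : E n → E n,
      G = fun x => (InnerProductSpace.toDual ℝ (E n)).symm (fderiv ℝ g x) := ⟨_, rfl⟩
  have hGi : ∀ x v, inner ℝ (G x) v = fderiv ℝ g x v := by
    intro x v
    rw [hG]
    exact InnerProductSpace.toDual_symm_apply
  have hG0 : ∀ x, G x ≠ 0 := by
    intro x h
    apply hreg x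
    ext v
    rw [← hGi, h, inner_zero_left]
    rfl
  have hGs : ContDiff ℝ ∞ G := by
    rw [hG]
    exact (InnerProductSpace.toDual ℝ (E n)).symm.contDiff.comp
      (hg.fderiv_right (m := ∞) (by simp))
  obtain ⟨V, hV⟩ : ∃ V : E n → E n, V = fun x => (‖G x‖ ^ 2)⁻¹ • G x := ⟨_, rfl⟩
  have hVs : ContDiff ℝ ∞ V := by
    rw [hV]
    refine ContDiff.smul (ContDiff.inv (hGs.norm_sq ℝ) fun x => ?_) hGs
    have := hG0 x
    positivity
  have hVg : ∀ x, fderiv ℝ g x (V x) = 1 := by
    intro x
    rw [← hGi, hV]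
    have := norm_pos_iff.2 (hG0 x)
    show inner ℝ (G x) ((‖G x‖ ^ 2)⁻¹ • G x) = 1
    rw [inner_smul_right, real_inner_self_eq_norm_sq]
    field_simp
  have hVC : ∀ x, x ∉ C → V x = e := by
    intro x hx
    have h1 : g =ᶠ[𝓝 x] L := by
      filter_upwards [hC.isClosed.isOpen_compl.mem_nhds hx] with y hy
      exact hgC y hy
    have h2 : fderiv ℝ g x = L := by rw [h1.fderiv_eq, L.fderiv]
    have h3 : G x = e := by
      refine ext_inner_right ℝ fun v => ?_
      rw [hGi, h2, hL]
    rw [hV]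
    show (‖G x‖ ^ 2)⁻¹ • G x = e
    rw [h3, he]
    simp
  -- the flow
  have hVm : ContMDiff (𝓡 n) (𝓡 n).tangent ∞ (fun x => (⟨x, V x⟩ : TangentBundle (𝓡 n) (E n))) :=
    contMDiff_vectorSpace_iff_contDiff.2 hVs
  choose Fl h0 hFl using fun x => complete_const hVs hC he hVC x
  have hadd : ∀ x s t, Fl x (s + t) = Fl (Fl x s) t := fun x s t => flow_add hVm h0 hFl x s t
  have hFs : ContDiff ℝ ∞ (fun p : E n × ℝ => Fl p.1 p.2) := by
    have h1 := contMDiff_flow hVm h0 hFl
    rw [← modelWithCornersSelf_prod, chartedSpaceSelf_prod] at h1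
    exact h1.contDiff
  have hgFl : ∀ x t, g (Fl x t) = g x + t := by
    intro x t
    have hd : ∀ s, HasDerivAt (fun s => g (Fl x s) - s) 0 s := by
      intro s
      have h1 : HasFDerivAt (Fl x) ((1 : ℝ →L[ℝ] ℝ).smulRight (V (Fl x s))) s :=
        hasMFDerivAt_iff_hasFDerivAt.1 (hFl x s)
      have h2 := (hg.differentiable (by simp) (Fl x s)).hasFDerivAt.comp_hasDerivAt s
        h1.hasDerivAt
      have h3 : HasDerivAt (fun s => g (Fl x s)) 1 s := by
        refine h2.congr_deriv ?_
        show fderiv ℝ g (Fl x s) ((1 : ℝ) • V (Fl x s)) = 1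
        rw [one_smul, hVg]
      have h4 := h3.sub (hasDerivAt_id' s)
      rw [sub_self] at h4
      exact h4
    have h5 := is_const_of_deriv_eq_zero (fun s => (hd s).differentiableAt)
      (fun s => (hd s).deriv) t 0
    beta_reduce at h5
    rw [h0] at h5
    linarith
  -- the region where the field is constant
  obtain ⟨η, hη, hηC⟩ : ∃ η : ℝ, 0 < η ∧ ∀ x ∈ C, η ≤ L x := by
    rcases C.eq_empty_or_nonempty with rfl | hne
    · exact ⟨1, one_pos, by simp⟩
    · obtain ⟨y, hy, hymin⟩ := hC.exists_isMinOn hne L.continuous.continuousOn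
      exact ⟨L y, hCpos y hy, fun x hx => hymin hx⟩
  have hline : ∀ x t, L x < η → L x + t < η → Fl x t = x + t • e := by
    intro x t hx hxt
    obtain ⟨a, ha⟩ : ∃ a : ℝ, a = min t 0 - 1 := ⟨_, rfl⟩
    have hat : a < t := by
      have := min_le_left t 0
      linarith
    have ha0 : a < 0 := by
      have := min_le_right t 0
      linarith
    have hint : IsMIntegralCurveOn (I := 𝓡 n) (fun s => x + s • e) V (Ioo a (η - L x)) := by
      intro s hs
      have hnC : x + s • e ∉ C := by
        intro h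
        have h1 := hηC _ h
        rw [map_add, map_smul, hLe, smul_eq_mul, mul_one] at h1
        linarith [hs.2]
      have h1 : HasFDerivAt (fun t : ℝ => x + t • e) ((1 : ℝ →L[ℝ] ℝ).smulRight e) s := by
        have h2 : HasDerivAt (fun t : ℝ => x + t • e) ((1 : ℝ) • e) s :=
          ((hasDerivAt_id' s).smul_const e).const_add x
        rw [one_smul] at h2
        exact h2.hasFDerivAt
      have h3 : HasMFDerivAt 𝓘(ℝ, ℝ) (𝓡 n) (fun t : ℝ => x + t • e) s
          ((1 : ℝ →L[ℝ] ℝ).smulRight (V (x + s • e))) := by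
        rw [hVC _ hnC]
        exact h1.hasMFDerivAt
      exact h3.hasMFDerivWithinAt
    have heq := isMIntegralCurveOn_Ioo_eqOn_of_contMDiff_boundaryless (I := 𝓡 n) (t₀ := 0)
      (a := a) (b := η - L x) ⟨ha0, by linarith⟩ (hVm.of_le (by simp))
      ((hFl x).isMIntegralCurveOn _) hint (by
        rw [h0]
        simp)
    exact heq ⟨hat, by linarith⟩
  -- the sign of `g`
  have hgC0 : ∀ x ∈ C, 0 < g x := by
    rcases C.eq_empty_or_nonempty with rfl | hne
    · simp
    obtain ⟨y, hy, hymin⟩ := hC.exists_isMinOn hne hg.continuous.continuousOn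
    intro x hx
    refine lt_of_lt_of_le ?_ (hymin hx)
    by_contra hcon
    push Not at hcon
    have hloc : IsLocalMin g y := by
      have h1 : ∀ᶠ z in 𝓝 y, 0 < L z :=
        (isOpen_Ioi.preimage L.continuous).mem_nhds (hCpos y hy)
      filter_upwards [h1] with z hz
      by_cases hzC : z ∈ C
      · exact hymin hzC
      · rw [hgC z hzC]
        linarith
    exact hreg y hloc.fderiv_eq_zero
  have hg0 : ∀ x, g x = 0 → L x = 0 := by
    intro x hx
    by_cases hxC : x ∈ C
    · have := hgC0 x hxC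
      linarith
    · rw [← hgC x hxC, hx]
  have hL0 : ∀ x, L x = 0 → g x = 0 := by
    intro x hx
    have hxC : x ∉ C := fun h => by
      have := hCpos x h
      linarith
    rw [hgC x hxC, hx]
  refine ⟨fun x => Fl x (-g x) + g x • e, fun y => Fl (y - L y • e) (L y), η, ?_, ?_, ?_, ?_, ?_,
    hη, ?_⟩
  · exact (hFs.comp (contDiff_id.prodMk hg.neg)).add (hg.smul contDiff_const)
  · exact hFs.comp ((contDiff_id.sub (L.contDiff.smul contDiff_const)).prodMk L.contDiff)
  · intro x
    have h1 : L (Fl x (-g x)) = 0 := hg0 _ (by rw [hgFl]; ring)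
    have h2 : L (Fl x (-g x) + g x • e) = g x := by
      rw [map_add, h1, map_smul, hLe, smul_eq_mul]
      ring
    show Fl ((Fl x (-g x) + g x • e) - L (Fl x (-g x) + g x • e) • e)
      (L (Fl x (-g x) + g x • e)) = x
    rw [h2, add_sub_cancel_right, ← hadd, neg_add_cancel, h0]
  · intro y
    have h1 : L (y - L y • e) = 0 := by
      rw [map_sub, map_smul, hLe, smul_eq_mul]
      ring
    have h2 : g (Fl (y - L y • e) (L y)) = L y := by
      rw [hgFl, hL0 _ h1, zero_add]
    show Fl (Fl (y - L y • e) (L y)) (-g (Fl (y - L y • e) (L y))) +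
      g (Fl (y - L y • e) (L y)) • e = y
    rw [h2, ← hadd, add_neg_cancel, h0, sub_add_cancel]
  · intro x
    have h1 : L (Fl x (-g x)) = 0 := hg0 _ (by rw [hgFl]; ring)
    show L (Fl x (-g x) + g x • e) = g x
    rw [map_add, h1, map_smul, hLe, smul_eq_mul]
    ring
  · intro x hx
    have hxC : x ∉ C := fun h => by
      have := hηC x h
      linarith
    show Fl x (-g x) + g x • e = x
    rw [hgC x hxC, hline x (-L x) hx (by linarith)]
    simp

end Pool.Agent.N824.FL
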